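import Pool.Agent.Helper57.SI.Stmts
import Pool.Agent.Helper71.CP.M2

/-! # Row MT: consequences of Mertens' theorem -/

set_option autoImplicit false

namespace Pool.Agent.Helper99.SI

open MeasureTheory Set Filter Topology Pool.Agent.Helper57.SI

theorem MT_P2 (n : ℕ) : P2 n = Pool.Agent.Helper56.CP.mtA n := rfl

theorem MT_P1 (z Z : ℕ) (h : z ≤ Z) :
    Real.log z * (P1 Z - P1 z) ≤ P2 Z - P2 z := by
  have hsub : Nat.primesBelow (z + 1) ⊆ Nat.primesBelow (Z + 1) := by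
    intro p hp
    rw [Nat.mem_primesBelow] at hp ⊢
    exact ⟨by omega, hp.2⟩
  have h1 : P1 Z - P1 z =
      ∑ p ∈ Nat.primesBelow (Z + 1) \ Nat.primesBelow (z + 1), 1 / (p : ℝ) := by
    unfold P1
    rw [← Finset.sum_sdiff hsub]
    ring
  have h2 : P2 Z - P2 z =
      ∑ p ∈ Nat.primesBelow (Z + 1) \ Nat.primesBelow (z + 1), Real.log p / (p : ℝ) := by
    unfold P2
    rw [← Finset.sum_sdiff hsub]
    ring
  rw [h1, h2, Finset.mul_sum]
  apply Finset.sum_le_sum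
  intro p hp
  rw [Finset.mem_sdiff, Nat.mem_primesBelow, Nat.mem_primesBelow] at hp
  have hz : z < p := by
    by_contra hh
    exact hp.2 ⟨by omega, hp.1.2⟩
  have hp0 : (0 : ℝ) < p := by exact_mod_cast hp.1.2.pos
  have hlog : Real.log z ≤ Real.log p := by
    rcases Nat.eq_zero_or_pos z with h0 | h0
    · subst h0
      rw [Nat.cast_zero, Real.log_zero]
      exact Real.log_natCast_nonneg p
    · exact Real.log_le_log (by exact_mod_cast h0) (by exact_mod_cast hz.le)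
  rw [mul_one_div]
  exact div_le_div_of_nonneg_right hlog hp0.le

theorem MT_l16 : Real.log 16 ≤ 3 := by
  have h : Real.log 16 = 4 * Real.log 2 := by
    rw [show (16 : ℝ) = 2 ^ (4 : ℕ) by norm_num, Real.log_pow]
    norm_num
  rw [h]
  have := Real.log_two_lt_d9
  linarith

theorem MT_l4 : Real.log 4 ≤ 2 := by
  have h : Real.log 4 = 2 * Real.log 2 := by
    rw [show (4 : ℝ) = 2 ^ (2 : ℕ) by norm_num, Real.log_pow]
    norm_num
  rw [h]
  have := Real.log_two_lt_d9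
  linarith

theorem MT_z (L l : ℝ) (hL : 0 < L) (hl : Real.log L = l) (h80 : 80 ≤ l) :
    0 < ⌊L / (8 * (⌈l⌉₊ : ℝ))⌋₊ ∧ L / (8 * (⌈l⌉₊ : ℝ)) ≤ L ∧
    l - 3 - Real.log (l + 1) ≤ Real.log (⌊L / (8 * (⌈l⌉₊ : ℝ))⌋₊ : ℝ) := by
  have hK1 : (⌈l⌉₊ : ℝ) < l + 1 := Nat.ceil_lt_add_one (by linarith)
  have hK2 : l ≤ (⌈l⌉₊ : ℝ) := Nat.le_ceil l
  have hK0 : (0 : ℝ) < (⌈l⌉₊ : ℝ) := by linarith
  have hexp : L = Real.exp l := by rw [← hl, Real.exp_log hL]
  have hL16 : 16 * (l + 1) ≤ L := by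
    have q := Real.quadratic_le_exp_of_nonneg (show 0 ≤ l by linarith)
    rw [← hexp] at q
    nlinarith
  have hx2 : 2 ≤ L / (8 * (⌈l⌉₊ : ℝ)) := by
    rw [le_div_iff₀ (by positivity)]
    linarith
  have hxL : L / (8 * (⌈l⌉₊ : ℝ)) ≤ L := by
    apply div_le_self hL.le
    linarith
  have hfl : L / (8 * (⌈l⌉₊ : ℝ)) - 1 < (⌊L / (8 * (⌈l⌉₊ : ℝ))⌋₊ : ℝ) := Nat.sub_one_lt_floor _
  have hlow : L / (16 * (l + 1)) ≤ (⌊L / (8 * (⌈l⌉₊ : ℝ))⌋₊ : ℝ) := by
    have h1 : L / (16 * (l + 1)) ≤ L / (8 * (⌈l⌉₊ : ℝ)) / 2 := by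
      rw [div_div]
      apply div_le_div_of_nonneg_left hL.le (by positivity)
      linarith
    linarith
  refine ⟨?_, hxL, ?_⟩
  · have : (0 : ℝ) < (⌊L / (8 * (⌈l⌉₊ : ℝ))⌋₊ : ℝ) := by linarith
    exact_mod_cast this
  · have h2 : 0 < l + 1 := by linarith
    have h3 : Real.log (L / (16 * (l + 1))) = l - Real.log 16 - Real.log (l + 1) := by
      rw [Real.log_div hL.ne' (by positivity), Real.log_mul (by norm_num) h2.ne', hl]
      ring
    have h4 := Real.log_le_log (show 0 < L / (16 * (l + 1)) by positivity) hlow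
    rw [h3] at h4
    have := MT_l16
    linarith

theorem st_MT : ST_MT := by
  intro η hη C
  obtain ⟨hη0, hη1⟩ := hη
  have hc0 : ∃ c0 : ℝ, 0 ≤ c0 ∧ ∀ x : ℝ, 0 ≤ x → Real.log (x + 1) ≤ η / 16 * x + c0 := by
    refine ⟨-Real.log (η / 16), ?_, ?_⟩
    · have : Real.log (η / 16) ≤ 0 := Real.log_nonpos (by positivity) (by linarith)
      linarith
    · intro x hx
      have h1 : Real.log (η / 16 * (x + 1)) ≤ η / 16 * (x + 1) - 1 :=
        Real.log_le_sub_one_of_pos (by positivity)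
      rw [Real.log_mul (by positivity) (by positivity)] at h1
      linarith
  obtain ⟨c0, hc0, hlog1⟩ := hc0
  refine ⟨Real.exp (Real.exp (max 80 (2 / η * (14 + 3 * c0 + |C|)))), ?_⟩
  intro H hH
  have hHpos : 0 < H := (Real.exp_pos _).trans_le hH
  have hL : Real.exp (max 80 (2 / η * (14 + 3 * c0 + |C|))) ≤ Real.log H := by
    rw [Real.le_log_iff_exp_le hHpos]
    exact hH
  have hLpos : 0 < Real.log H := (Real.exp_pos _).trans_le hL
  have hl : max 80 (2 / η * (14 + 3 * c0 + |C|)) ≤ Real.log (Real.log H) := by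
    rw [Real.le_log_iff_exp_le hLpos]
    exact hL
  have h3H : 3 ≤ H := by
    have h1 := Real.add_one_le_exp (Real.exp (max 80 (2 / η * (14 + 3 * c0 + |C|))))
    have h2 := Real.add_one_le_exp (max 80 (2 / η * (14 + 3 * c0 + |C|)))
    have h3 := le_max_left (80 : ℝ) (2 / η * (14 + 3 * c0 + |C|))
    linarith
  have h80 : 80 ≤ Real.log (Real.log H) := (le_max_left _ _).trans hl
  have hbig : 2 / η * (14 + 3 * c0 + |C|) ≤ Real.log (Real.log H) := (le_max_right _ _).trans hl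
  unfold zz ZZ Kk
  generalize hLd : Real.log H = L at *
  generalize hld : Real.log L = l at *
  obtain ⟨hz0, hzL, hzlog⟩ := MT_z L l hLpos hld h80
  have hbig' : 14 + 3 * c0 + |C| ≤ η / 2 * l := by
    have h1 := mul_le_mul_of_nonneg_left hbig (show 0 ≤ η / 2 by positivity)
    have e : η / 2 * (2 / η * (14 + 3 * c0 + |C|)) = 14 + 3 * c0 + |C| := by field_simp
    linarith
  have hCabs : C ≤ |C| := le_abs_self C
  have hC0 : 0 ≤ |C| := abs_nonneg C
  have hηl : η * l ≤ l := by nlinarith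
  have hηl0 : 0 ≤ η * l := by nlinarith
  have hηη : η * (η * l) ≤ η * l := by nlinarith
  have h1l := hlog1 l (by linarith)
  have hL1 : 1 ≤ L := by
    have := Real.add_one_le_exp l
    rw [← hld, Real.exp_log hLpos] at this
    linarith
  have hLpow : L ≤ L ^ (1 + η) := by
    have := Real.rpow_le_rpow_of_exponent_le hL1 (show (1 : ℝ) ≤ 1 + η by linarith)
    rwa [Real.rpow_one] at this
  have hzZ : ⌊L / (8 * (⌈l⌉₊ : ℝ))⌋₊ ≤ ⌊L ^ (1 + η)⌋₊ :=
    Nat.floor_le_floor (hzL.trans hLpow)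
  generalize hz : ⌊L / (8 * (⌈l⌉₊ : ℝ))⌋₊ = z at *
  generalize hZ : ⌊L ^ (1 + η)⌋₊ = Z at *
  have hz1 : (0 : ℝ) < z := by exact_mod_cast hz0
  have hzle : (z : ℝ) ≤ L := by
    rw [← hz]
    refine (Nat.floor_le ?_).trans hzL
    positivity
  have hlogz : Real.log z ≤ l := by
    rw [← hld]
    exact Real.log_le_log hz1 hzle
  have hlz : (1 - η / 16) * l - 3 - c0 ≤ Real.log z := by linarith
  have hZ0 : 0 < Z := lt_of_lt_of_le hz0 hzZ
  have hZ1 : (0 : ℝ) < Z := by exact_mod_cast hZ0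
  have hZlog : Real.log Z ≤ (1 + η) * l := by
    have h1 : (Z : ℝ) ≤ L ^ (1 + η) := by
      rw [← hZ]
      exact Nat.floor_le (by positivity)
    have h2 := Real.log_le_log hZ1 h1
    rwa [Real.log_rpow hLpos, hld] at h2
  have hP2Z : P2 Z ≤ Real.log Z + Real.log 4 := by
    rw [MT_P2]
    exact Pool.Agent.Helper56.CP.mtA_le hZ0
  have hP2z : Real.log z - 3 ≤ P2 z := by
    rw [MT_P2]
    exact Pool.Agent.Helper56.CP.mtA_ge hz0
  have h4 := MT_l4
  have hzexp : Real.log z ≤ z := by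
    have := Real.log_le_sub_one_of_pos hz1
    linarith
  refine ⟨h3H, ?_, ?_, hzZ, Real.log_natCast_nonneg z, hlogz, ?_, ?_, ?_⟩
  · linarith
  · nlinarith
  · linarith
  · linarith
  · have h5 := MT_P1 z Z hzZ
    have h6 : 0 < Real.log z := by nlinarith
    have h7 : P2 Z - P2 z ≤ Real.log z * (2 * η) := by
      have h8 : 2 * η * ((1 - η / 16) * l - 3 - c0) ≤ 2 * η * Real.log z :=
        mul_le_mul_of_nonneg_left hlz (by linarith)
      have h9 : 2 * η * (3 + c0) ≤ 2 * (3 + c0) := by nlinarith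
      nlinarith
    have h8 : P1 Z - P1 z ≤ 2 * η := le_of_mul_le_mul_left (h5.trans h7) h6
    linarith

end Pool.Agent.Helper99.SI
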